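import Pool.Agent.Helper36_RF.GeoSt
import Pool.Agent.Helper36_RF.Ex

/-!
# Module CURV: the curvature tensor of the local doubly warped model
-/

noncomputable section

open scoped ContDiff Topology RealInnerProductSpace
set_option maxSynthPendingDepth 3
set_option linter.unusedSectionVars false
open Set

namespace Pool.Agent.RF.Curv83

variable {α β : Type} [Fintype α] [DecidableEq α] [Fintype β] [DecidableEq β]

/-- the vector with given components -/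
def ilr (p : E α) (q : E β) : E (α ⊕ β) := WithLp.toLp 2 (Sum.elim p q)

@[simp] theorem prl_ilr (p : E α) (q : E β) : prl (ilr p q) = p := by
  ext i; rfl

@[simp] theorem prr_ilr (p : E α) (q : E β) : prr (ilr p q) = q := by
  ext i; rfl

theorem ext_lr {x y : E (α ⊕ β)} (h1 : (prl x : E α) = prl y) (h2 : (prr x : E β) = prr y) :
    x = y := by
  ext i
  rcases i with i | i
  · exact congrArg (fun z : E α => z i) h1
  · exact congrArg (fun z : E β => z i) h2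

/-- the round metric in graph coordinates, on components -/
def hf (u p q : E α) : ℝ := ⟪p, q⟫ + (1 - ‖u‖ ^ 2)⁻¹ * (⟪u, p⟫ * ⟪u, q⟫)

/-- the value on the position vector -/
def hu (u q : E α) : ℝ := (1 - ‖u‖ ^ 2)⁻¹ * ⟪u, q⟫

theorem hrd_apply (y v w : E (α ⊕ β)) : hrd y v w = hf (prl y : E α) (prl v) (prl w) := by
  simp [hrd, hf]

theorem hf_symm (u p q : E α) : hf u p q = hf u q p := by
  unfold hf
  rw [real_inner_comm p q]
  ring

theorem hf_add_left (u p p' q : E α) : hf u (p + p') q = hf u p q + hf u p' q := by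
  unfold hf
  rw [inner_add_left, inner_add_right]
  ring

theorem hf_sub_left (u p p' q : E α) : hf u (p - p') q = hf u p q - hf u p' q := by
  unfold hf
  rw [inner_sub_left, inner_sub_right]
  ring

theorem hf_smul_left (u p q : E α) (c : ℝ) : hf u (c • p) q = c * hf u p q := by
  unfold hf
  rw [inner_smul_left, inner_smul_right]
  simp
  ring

theorem hf_self (u q : E α) (hu1 : ‖u‖ ^ 2 < 1) : hf u u q = hu u q := by
  unfold hf hu
  have : (1 : ℝ) - ‖u‖ ^ 2 ≠ 0 := by linarith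
  rw [real_inner_self_eq_norm_sq]
  field_simp
  ring

theorem gloc_apply (η A : ℝ → ℝ) (y v w : E (α ⊕ β)) : gloc η A y v w =
    ⟪(prr v : E β), prr w⟫ + η (‖prr y‖ ^ 2) * (⟪(prr y : E β), prr v⟫ * ⟪(prr y : E β), prr w⟫)
      + A (‖prr y‖ ^ 2) * hf (prl y : E α) (prl v) (prl w) := by
  simp [gloc, g1, g3, hrd_apply]

/-! ### the metric -/

theorem isOpen_DomG (ρ : ℝ) : IsOpen (DomG α β ρ) := by
  have h1 : Continuous fun y : E (α ⊕ β) => ‖(prr y : E β)‖ ^ 2 :=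
    ((prr : E (α ⊕ β) →L[ℝ] E β).continuous.norm).pow 2
  have h2 : Continuous fun y : E (α ⊕ β) => ‖(prl y : E α)‖ ^ 2 :=
    ((prl : E (α ⊕ β) →L[ℝ] E α).continuous.norm).pow 2
  exact (isOpen_lt h1 continuous_const).inter (isOpen_lt h2 continuous_const)

theorem smooth_gloc {η A : ℝ → ℝ} {ρ : ℝ} (hp : Prof η A ρ) :
    ContDiffOn ℝ ∞ (gloc η A : E (α ⊕ β) → Bil (E (α ⊕ β))) (DomG α β ρ) := by
  have hτ : ContDiff ℝ ∞ fun y : E (α ⊕ β) => ‖(prr y : E β)‖ ^ 2 :=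
    (prr : E (α ⊕ β) →L[ℝ] E β).contDiff.norm_sq ℝ
  have hu' : ContDiff ℝ ∞ fun y : E (α ⊕ β) => ‖(prl y : E α)‖ ^ 2 :=
    (prl : E (α ⊕ β) →L[ℝ] E α).contDiff.norm_sq ℝ
  have hη : ContDiffOn ℝ ∞ (fun y : E (α ⊕ β) => η (‖(prr y : E β)‖ ^ 2)) (DomG α β ρ) :=
    hp.smoothη.comp hτ.contDiffOn fun y hy => hy.1
  have hA : ContDiffOn ℝ ∞ (fun y : E (α ⊕ β) => A (‖(prr y : E β)‖ ^ 2)) (DomG α β ρ) :=
    hp.smoothA.comp hτ.contDiffOn fun y hy => hy.1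
  have hr : ContDiffOn ℝ ∞ (fun y : E (α ⊕ β) => (1 - ‖(prl y : E α)‖ ^ 2)⁻¹) (DomG α β ρ) := by
    refine ContDiffOn.inv (contDiff_const.sub hu').contDiffOn fun y hy => ?_
    have := hy.2
    linarith
  have hcR : ContDiff ℝ ∞ (coR : E (α ⊕ β) → _) := by
    unfold coR
    fun_prop
  have hcL : ContDiff ℝ ∞ (coL : E (α ⊕ β) → _) := by
    unfold coL
    fun_prop
  have hrR : ContDiff ℝ ∞ fun y : E (α ⊕ β) => rk (coR y) := by
    unfold rk
    exact hcR.smulRight hcR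
  have hrL : ContDiff ℝ ∞ fun y : E (α ⊕ β) => rk (coL y) := by
    unfold rk
    exact hcL.smulRight hcL
  have h1 : ContDiffOn ℝ ∞ (g1 η : E (α ⊕ β) → Bil (E (α ⊕ β))) (DomG α β ρ) := by
    unfold g1
    exact contDiffOn_const.add (hη.smul hrR.contDiffOn)
  have h2 : ContDiffOn ℝ ∞ (hrd : E (α ⊕ β) → Bil (E (α ⊕ β))) (DomG α β ρ) := by
    unfold hrd
    exact contDiffOn_const.add (hr.smul hrL.contDiffOn)
  have h3 : ContDiffOn ℝ ∞ (g3 A : E (α ⊕ β) → Bil (E (α ⊕ β))) (DomG α β ρ) := by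
    unfold g3
    exact hA.smul h2
  exact h1.add h3

theorem hf_pos {u p : E α} (hu1 : ‖u‖ ^ 2 < 1) (hp : p ≠ 0) : 0 < hf u p p := by
  unfold hf
  have h1 : 0 < (1 - ‖u‖ ^ 2)⁻¹ := inv_pos.2 (by linarith)
  have h2 : 0 < ⟪p, p⟫ := real_inner_self_pos.2 hp
  have h3 : 0 ≤ (1 - ‖u‖ ^ 2)⁻¹ * (⟪u, p⟫ * ⟪u, p⟫) := mul_nonneg h1.le (mul_self_nonneg _)
  linarith

theorem g1_pos {η : ℝ} {z q : E β} (h : 0 < 1 + η * ‖z‖ ^ 2) (hq : q ≠ 0) :
    0 < ⟪q, q⟫ + η * (⟪z, q⟫ * ⟪z, q⟫) := by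
  have h2 : 0 < ⟪q, q⟫ := real_inner_self_pos.2 hq
  rcases le_or_gt 0 η with h0 | h0
  · have : 0 ≤ η * (⟪z, q⟫ * ⟪z, q⟫) := mul_nonneg h0 (mul_self_nonneg _)
    linarith
  · have h3 : ⟪z, q⟫ * ⟪z, q⟫ ≤ ‖z‖ ^ 2 * ⟪q, q⟫ := by
      rw [← real_inner_self_eq_norm_sq]
      exact real_inner_mul_inner_self_le z q
    have h4 : η * (‖z‖ ^ 2 * ⟪q, q⟫) ≤ η * (⟪z, q⟫ * ⟪z, q⟫) :=
      mul_le_mul_of_nonpos_left h3 h0.le
    nlinarith [mul_pos h h2]

theorem metric_gloc {η A : ℝ → ℝ} {ρ : ℝ} (hp : Prof η A ρ) :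
    IsMetricOn (gloc η A : E (α ⊕ β) → Bil (E (α ⊕ β))) (DomG α β ρ) where
  isOpen := isOpen_DomG ρ
  smooth := smooth_gloc hp
  symm := fun y _ v w => by
    rw [gloc_apply, gloc_apply, real_inner_comm (prr w : E β) (prr v),
      hf_symm (prl y : E α) (prl v)]
    ring
  pos := fun y hy v hv => by
    rw [gloc_apply]
    have hτ : ‖(prr y : E β)‖ ^ 2 ∈ Ico 0 ρ := ⟨by positivity, hy.1⟩
    have hη := hp.η_pos _ hτ
    have hA := hp.A_pos _ hτ
    by_cases h2 : (prr v : E β) = 0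
    · have h1 : (prl v : E α) ≠ 0 := by
        intro h1
        exact hv (ext_lr (by rw [h1, map_zero]) (by rw [h2, map_zero]))
      rw [h2]
      simp only [inner_zero_right, mul_zero, add_zero, zero_add]
      exact mul_pos hA (hf_pos hy.2 h1)
    · have h3 := g1_pos hη h2
      have h4 : 0 ≤ A (‖(prr y : E β)‖ ^ 2) * hf (prl y : E α) (prl v) (prl v) := by
        by_cases h1 : (prl v : E α) = 0
        · rw [h1]
          simp [hf]
        · exact (mul_pos hA (hf_pos hy.2 h1)).le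
      linarith

/-! ### derivatives along lines -/

section Line

variable (y a : E (α ⊕ β))

theorem hd_line {V : Type*} [NormedAddCommGroup V] [NormedSpace ℝ V] (y a : V) :
    HasDerivAt (fun t : ℝ => y + t • a) a 0 := by
  simpa using ((hasDerivAt_id (0:ℝ)).smul_const a).const_add y

theorem hd_prr : HasDerivAt (fun t : ℝ => (prr (y + t • a) : E β)) (prr a) 0 :=
  (prr : E (α ⊕ β) →L[ℝ] E β).hasFDerivAt.comp_hasDerivAt 0 (hd_line y a)

theorem hd_prl : HasDerivAt (fun t : ℝ => (prl (y + t • a) : E α)) (prl a) 0 :=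
  (prl : E (α ⊕ β) →L[ℝ] E α).hasFDerivAt.comp_hasDerivAt 0 (hd_line y a)

theorem hd_tau : HasDerivAt (fun t : ℝ => ‖(prr (y + t • a) : E β)‖ ^ 2)
    (2 * ⟪(prr y : E β), prr a⟫) 0 := by
  have := (hd_prr y a).norm_sq
  simpa using this

theorem hd_nu : HasDerivAt (fun t : ℝ => ‖(prl (y + t • a) : E α)‖ ^ 2)
    (2 * ⟪(prl y : E α), prl a⟫) 0 := by
  have := (hd_prl y a).norm_sq
  simpa using this

theorem hd_Z (q : E β) : HasDerivAt (fun t : ℝ => ⟪(prr (y + t • a) : E β), q⟫)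
    ⟪(prr a : E β), q⟫ 0 := by
  have := (hd_prr y a).inner ℝ (hasDerivAt_const 0 q)
  simpa using this

theorem hd_U (q : E α) : HasDerivAt (fun t : ℝ => ⟪(prl (y + t • a) : E α), q⟫)
    ⟪(prl a : E α), q⟫ 0 := by
  have := (hd_prl y a).inner ℝ (hasDerivAt_const 0 q)
  simpa using this

theorem hd_comp {f : ℝ → ℝ} (hf : DifferentiableAt ℝ f (‖(prr y : E β)‖ ^ 2)) :
    HasDerivAt (fun t : ℝ => f (‖(prr (y + t • a) : E β)‖ ^ 2))
      (deriv f (‖(prr y : E β)‖ ^ 2) * (2 * ⟪(prr y : E β), prr a⟫)) 0 := by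
  have h0 : ‖(prr (y + (0 : ℝ) • a) : E β)‖ ^ 2 = ‖(prr y : E β)‖ ^ 2 := by simp
  have h1 : HasDerivAt f (deriv f (‖(prr y : E β)‖ ^ 2)) (‖(prr (y + (0 : ℝ) • a) : E β)‖ ^ 2) := by
    rw [h0]
    exact hf.hasDerivAt
  exact HasDerivAt.comp (0 : ℝ) h1 (hd_tau y a)

theorem hd_hf (hy : ‖(prl y : E α)‖ ^ 2 < 1) (p q : E α) :
    HasDerivAt (fun t : ℝ => hf (prl (y + t • a) : E α) p q)
      (hf (prl y : E α) (prl a) p * hu (prl y : E α) q
        + hf (prl y : E α) (prl a) q * hu (prl y : E α) p) 0 := by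
  have h0 : (prl (y + (0 : ℝ) • a) : E α) = prl y := by simp
  have hne : (1 : ℝ) - ‖(prl y : E α)‖ ^ 2 ≠ 0 := by linarith
  have h1 : HasDerivAt (fun t : ℝ => (1 - ‖(prl (y + t • a) : E α)‖ ^ 2)⁻¹)
      (-(-(2 * ⟪(prl y : E α), prl a⟫)) / (1 - ‖(prl (y + (0 : ℝ) • a) : E α)‖ ^ 2) ^ 2) 0 :=
    ((hd_nu y a).const_sub 1).inv (by rw [h0]; exact hne)
  have h2 := (h1.mul ((hd_U y a p).mul (hd_U y a q))).const_add ⟪p, q⟫
  refine h2.congr_deriv ?_
  simp only [h0, Pi.mul_apply]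
  unfold hf hu
  field_simp
  ring

end Line

section Local

variable {η A : ℝ → ℝ} {ρ : ℝ}

theorem diffAt_η (hp : Prof η A ρ) {y : E (α ⊕ β)} (hy : y ∈ DomG α β ρ) :
    DifferentiableAt ℝ η (‖(prr y : E β)‖ ^ 2) :=
  (hp.smoothη.contDiffAt (isOpen_Iio.mem_nhds hy.1)).differentiableAt (by simp)

theorem diffAt_A (hp : Prof η A ρ) {y : E (α ⊕ β)} (hy : y ∈ DomG α β ρ) :
    DifferentiableAt ℝ A (‖(prr y : E β)‖ ^ 2) :=
  (hp.smoothA.contDiffAt (isOpen_Iio.mem_nhds hy.1)).differentiableAt (by simp)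

theorem diffAt_dη (hp : Prof η A ρ) {y : E (α ⊕ β)} (hy : y ∈ DomG α β ρ) :
    DifferentiableAt ℝ (deriv η) (‖(prr y : E β)‖ ^ 2) :=
  ((hp.smoothη.deriv_of_isOpen (m := 1) isOpen_Iio (by norm_cast)).contDiffAt
    (isOpen_Iio.mem_nhds hy.1)).differentiableAt (by simp)

theorem diffAt_dA (hp : Prof η A ρ) {y : E (α ⊕ β)} (hy : y ∈ DomG α β ρ) :
    DifferentiableAt ℝ (deriv A) (‖(prr y : E β)‖ ^ 2) :=
  ((hp.smoothA.deriv_of_isOpen (m := 1) isOpen_Iio (by norm_cast)).contDiffAt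
    (isOpen_Iio.mem_nhds hy.1)).differentiableAt (by simp)

/-- the derivative of the metric -/
theorem fderiv_gloc (hp : Prof η A ρ) {y : E (α ⊕ β)} (hy : y ∈ DomG α β ρ)
    (v w z : E (α ⊕ β)) : fderiv ℝ (gloc η A) y v w z =
      deriv η (‖(prr y : E β)‖ ^ 2) * (2 * ⟪(prr y : E β), prr v⟫)
        * (⟪(prr y : E β), prr w⟫ * ⟪(prr y : E β), prr z⟫)
      + η (‖(prr y : E β)‖ ^ 2) * (⟪(prr v : E β), prr w⟫ * ⟪(prr y : E β), prr z⟫
        + ⟪(prr y : E β), prr w⟫ * ⟪(prr v : E β), prr z⟫)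
      + (deriv A (‖(prr y : E β)‖ ^ 2) * (2 * ⟪(prr y : E β), prr v⟫)
          * hf (prl y : E α) (prl w) (prl z)
        + A (‖(prr y : E β)‖ ^ 2) * (hf (prl y : E α) (prl v) (prl w) * hu (prl y : E α) (prl z)
          + hf (prl y : E α) (prl v) (prl z) * hu (prl y : E α) (prl w))) := by
  have hd : DifferentiableAt ℝ (gloc η A) y :=
    ((smooth_gloc hp).contDiffAt ((isOpen_DomG ρ).mem_nhds hy)).differentiableAt (by simp)
  have h0 : y + (0 : ℝ) • v = y := by simp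
  have h1 : HasDerivAt (fun t : ℝ => gloc η A (y + t • v)) (fderiv ℝ (gloc η A) y v) 0 := by
    have h2 : HasFDerivAt (gloc η A) (fderiv ℝ (gloc η A) y) (y + (0 : ℝ) • v) := by
      rw [h0]
      exact hd.hasFDerivAt
    exact h2.comp_hasDerivAt 0 (hd_line y v)
  have h3 : HasDerivAt (fun t : ℝ => gloc η A (y + t • v) w z) (fderiv ℝ (gloc η A) y v w z) 0 := by
    have h4 := (h1.clm_apply (hasDerivAt_const (0 : ℝ) w)).clm_apply (hasDerivAt_const (0 : ℝ) z)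
    simpa using h4
  have h5 : (fun t : ℝ => gloc η A (y + t • v) w z) = fun t : ℝ =>
      ⟪(prr w : E β), prr z⟫ + η (‖(prr (y + t • v) : E β)‖ ^ 2) *
        (⟪(prr (y + t • v) : E β), prr w⟫ * ⟪(prr (y + t • v) : E β), prr z⟫)
      + A (‖(prr (y + t • v) : E β)‖ ^ 2) * hf (prl (y + t • v) : E α) (prl w) (prl z) := by
    funext t
    exact gloc_apply _ _ _ _ _
  rw [h5] at h3
  have h6 := (((hd_comp y v (diffAt_η hp hy)).mul ((hd_Z y v (prr w)).mul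
    (hd_Z y v (prr z)))).const_add ⟪(prr w : E β), prr z⟫).add
    ((hd_comp y v (diffAt_A hp hy)).mul (hd_hf y v hy.2 (prl w) (prl z)))
  rw [h3.unique h6]
  simp only [h0, Pi.mul_apply]

/-- the Christoffel symbols -/
def gam (η A : ℝ → ℝ) (y v w : E (α ⊕ β)) : E (α ⊕ β) :=
  ilr (hf (prl y : E α) (prl v) (prl w) • (prl y : E α)
      + (deriv A (‖(prr y : E β)‖ ^ 2) / A (‖(prr y : E β)‖ ^ 2)) •
        (⟪(prr y : E β), prr v⟫ • (prl w : E α) + ⟪(prr y : E β), prr w⟫ • (prl v : E α)))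
    ((fP η (‖(prr y : E β)‖ ^ 2) * (η (‖(prr y : E β)‖ ^ 2) * ⟪(prr v : E β), prr w⟫
      + deriv η (‖(prr y : E β)‖ ^ 2) * (⟪(prr y : E β), prr v⟫ * ⟪(prr y : E β), prr w⟫)
      - deriv A (‖(prr y : E β)‖ ^ 2) * hf (prl y : E α) (prl v) (prl w))) • (prr y : E β))

theorem chris_gloc (hC : ChrStatement) (hp : Prof η A ρ) {y : E (α ⊕ β)}
    (hy : y ∈ DomG α β ρ) (v w : E (α ⊕ β)) : chris (gloc η A) y v w = gam η A y v w := by
  obtain ⟨hinv, hk, -⟩ := hC (α ⊕ β) _ _ (metric_gloc hp) y hy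
  have hτ : ‖(prr y : E β)‖ ^ 2 ∈ Ico 0 ρ := ⟨by positivity, hy.1⟩
  have hη := hp.η_pos _ hτ
  have hA := hp.A_pos _ hτ
  have hinj : Function.Injective (gloc η A y) := by
    obtain ⟨e, he⟩ := hinv
    rw [← he]
    exact e.injective
  apply hinj
  ext1 z
  rw [hk, fderiv_gloc hp hy, fderiv_gloc hp hy, fderiv_gloc hp hy, gloc_apply]
  unfold gam
  simp only [prl_ilr, prr_ilr, hf_add_left, hf_smul_left, hf_self _ _ hy.2, inner_smul_left,
    inner_smul_right, real_inner_self_eq_norm_sq, conj_trivial, fP]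
  rw [hf_symm (prl y : E α) (prl w) (prl v), real_inner_comm (prr v : E β) (prr w),
    hf_symm (prl y : E α) (prl z) (prl v), hf_symm (prl y : E α) (prl z) (prl w),
    real_inner_comm (prr v : E β) (prr z), real_inner_comm (prr w : E β) (prr z)]
  have h1 : 1 + η (‖(prr y : E β)‖ ^ 2) * ‖(prr y : E β)‖ ^ 2 ≠ 0 := hη.ne'
  have h2 : A (‖(prr y : E β)‖ ^ 2) ≠ 0 := hA.ne'
  generalize deriv η (‖(prr y : E β)‖ ^ 2) = η1 at *
  generalize deriv A (‖(prr y : E β)‖ ^ 2) = A1 at *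
  generalize η (‖(prr y : E β)‖ ^ 2) = η0 at *
  generalize A (‖(prr y : E β)‖ ^ 2) = A0 at *
  generalize ‖(prr y : E β)‖ ^ 2 = τ at *
  field_simp
  ring

/-! ### the derivative of the Christoffel symbols -/

theorem hd_chris (hC : ChrStatement) (hp : Prof η A ρ) {y : E (α ⊕ β)}
    (hy : y ∈ DomG α β ρ) (a b c : E (α ⊕ β)) :
    HasDerivAt (fun t : ℝ => gam η A (y + t • a) b c)
      (fderiv ℝ (fun y => chris (gloc η A) y b c) y a) 0 := by
  obtain ⟨-, -, -, -, -, -, hs⟩ := hC (α ⊕ β) _ _ (metric_gloc hp) y hy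
  have hd : DifferentiableAt ℝ (fun y => chris (gloc η A) y b c) y := by
    have h1 : ContDiffAt ℝ ∞ (fun q : E (α ⊕ β) × E (α ⊕ β) × E (α ⊕ β) =>
        chris (gloc η A) q.1 q.2.1 q.2.2) (y, b, c) :=
      hs.contDiffAt ((((isOpen_DomG ρ).prod isOpen_univ)).mem_nhds ⟨hy, mem_univ _⟩)
    have h2 : ContDiffAt ℝ ∞ (fun y : E (α ⊕ β) => (y, b, c)) y := by fun_prop
    exact (ContDiffAt.comp y h1 h2).differentiableAt (by simp)
  have h0 : y + (0 : ℝ) • a = y := by simp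
  have h1 : HasDerivAt (fun t : ℝ => chris (gloc η A) (y + t • a) b c)
      (fderiv ℝ (fun y => chris (gloc η A) y b c) y a) 0 := by
    have h2 : HasFDerivAt (fun y => chris (gloc η A) y b c)
        (fderiv ℝ (fun y => chris (gloc η A) y b c) y) (y + (0 : ℝ) • a) := by
      rw [h0]
      exact hd.hasFDerivAt
    exact h2.comp_hasDerivAt 0 (hd_line y a)
  refine h1.congr_of_eventuallyEq ?_
  have hc : ContinuousAt (fun t : ℝ => y + t • a) 0 := (hd_line y a).continuousAt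
  have hm : ∀ᶠ t : ℝ in 𝓝 0, y + t • a ∈ DomG α β ρ := by
    apply hc.eventually_mem
    rw [h0]
    exact (isOpen_DomG ρ).mem_nhds hy
  filter_upwards [hm] with t ht
  exact (chris_gloc hC hp ht b c).symm

theorem dgam1 (hC : ChrStatement) (hp : Prof η A ρ) {y : E (α ⊕ β)}
    (hy : y ∈ DomG α β ρ) (a b c : E (α ⊕ β)) :
    (prl (fderiv ℝ (fun y => chris (gloc η A) y b c) y a) : E α) =
      (hf (prl y : E α) (prl b) (prl c) • (prl a : E α)
        + (hf (prl y : E α) (prl a) (prl b) * hu (prl y : E α) (prl c)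
          + hf (prl y : E α) (prl a) (prl c) * hu (prl y : E α) (prl b)) • (prl y : E α))
      + ((deriv A (‖(prr y : E β)‖ ^ 2) / A (‖(prr y : E β)‖ ^ 2)) •
          (⟪(prr a : E β), prr b⟫ • (prl c : E α) + ⟪(prr a : E β), prr c⟫ • (prl b : E α))
        + (2 * (deriv (deriv A) (‖(prr y : E β)‖ ^ 2) / A (‖(prr y : E β)‖ ^ 2)
            - deriv A (‖(prr y : E β)‖ ^ 2) ^ 2 / A (‖(prr y : E β)‖ ^ 2) ^ 2)
              * ⟪(prr y : E β), prr a⟫) •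
          (⟪(prr y : E β), prr b⟫ • (prl c : E α) + ⟪(prr y : E β), prr c⟫ • (prl b : E α))) := by
  have h0 : y + (0 : ℝ) • a = y := by simp
  have hτ : ‖(prr y : E β)‖ ^ 2 ∈ Ico 0 ρ := ⟨by positivity, hy.1⟩
  have hA := hp.A_pos _ hτ
  have h1 := (prl : E (α ⊕ β) →L[ℝ] E α).hasFDerivAt.comp_hasDerivAt 0 (hd_chris hC hp hy a b c)
  have h2 : ((prl : E (α ⊕ β) →L[ℝ] E α) ∘ fun t : ℝ => gam η A (y + t • a) b c) =
      fun t : ℝ => hf (prl (y + t • a) : E α) (prl b) (prl c) • (prl (y + t • a) : E α)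
      + (deriv A (‖(prr (y + t • a) : E β)‖ ^ 2) / A (‖(prr (y + t • a) : E β)‖ ^ 2)) •
        (⟪(prr (y + t • a) : E β), prr b⟫ • (prl c : E α)
          + ⟪(prr (y + t • a) : E β), prr c⟫ • (prl b : E α)) := by
    funext t
    simp [gam]
  rw [h2] at h1
  have h3 := ((hd_hf y a hy.2 (prl b) (prl c)).smul (hd_prl y a)).add
    (((hd_comp y a (diffAt_dA hp hy)).div (hd_comp y a (diffAt_A hp hy))
      (by rw [h0]; exact hA.ne')).smul
      (((hd_Z y a (prr b)).smul_const (prl c : E α)).add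
        ((hd_Z y a (prr c)).smul_const (prl b : E α))))
  rw [h1.unique h3]
  simp only [h0, Pi.div_apply, Pi.add_apply]
  congr 3
  have hA' := hA.ne'
  field_simp

theorem hd_P (hp : Prof η A ρ) {y : E (α ⊕ β)} (hy : y ∈ DomG α β ρ) (a : E (α ⊕ β)) :
    HasDerivAt (fun t : ℝ => fP η (‖(prr (y + t • a) : E β)‖ ^ 2))
      (-(η (‖(prr y : E β)‖ ^ 2) + ‖(prr y : E β)‖ ^ 2 * deriv η (‖(prr y : E β)‖ ^ 2))
        * fP η (‖(prr y : E β)‖ ^ 2) ^ 2 * (2 * ⟪(prr y : E β), prr a⟫)) 0 := by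
  have h0 : y + (0 : ℝ) • a = y := by simp
  have hτ : ‖(prr y : E β)‖ ^ 2 ∈ Ico 0 ρ := ⟨by positivity, hy.1⟩
  have hη := hp.η_pos _ hτ
  have h1 := (((hd_comp y a (diffAt_η hp hy)).mul (hd_tau y a)).const_add 1).inv
    (by simp only [h0, Pi.mul_apply]; exact hη.ne')
  refine h1.congr_deriv ?_
  simp only [h0, Pi.mul_apply, fP]
  have h2 := hη.ne'
  generalize deriv η (‖(prr y : E β)‖ ^ 2) = η1 at *
  generalize η (‖(prr y : E β)‖ ^ 2) = η0 at *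
  generalize ‖(prr y : E β)‖ ^ 2 = τ at *
  field_simp
  ring

theorem dgam2 (hC : ChrStatement) (hp : Prof η A ρ) {y : E (α ⊕ β)}
    (hy : y ∈ DomG α β ρ) (a b c : E (α ⊕ β)) :
    (prr (fderiv ℝ (fun y => chris (gloc η A) y b c) y a) : E β) =
      (fP η (‖(prr y : E β)‖ ^ 2) * (η (‖(prr y : E β)‖ ^ 2) * ⟪(prr b : E β), prr c⟫
        + deriv η (‖(prr y : E β)‖ ^ 2) * (⟪(prr y : E β), prr b⟫ * ⟪(prr y : E β), prr c⟫)
        - deriv A (‖(prr y : E β)‖ ^ 2) * hf (prl y : E α) (prl b) (prl c))) • (prr a : E β)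
      + (-(η (‖(prr y : E β)‖ ^ 2) + ‖(prr y : E β)‖ ^ 2 * deriv η (‖(prr y : E β)‖ ^ 2))
          * fP η (‖(prr y : E β)‖ ^ 2) ^ 2 * (2 * ⟪(prr y : E β), prr a⟫) *
          (η (‖(prr y : E β)‖ ^ 2) * ⟪(prr b : E β), prr c⟫
        + deriv η (‖(prr y : E β)‖ ^ 2) * (⟪(prr y : E β), prr b⟫ * ⟪(prr y : E β), prr c⟫)
        - deriv A (‖(prr y : E β)‖ ^ 2) * hf (prl y : E α) (prl b) (prl c))
        + fP η (‖(prr y : E β)‖ ^ 2) *
          (deriv η (‖(prr y : E β)‖ ^ 2) * (2 * ⟪(prr y : E β), prr a⟫) * ⟪(prr b : E β), prr c⟫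
          + (deriv (deriv η) (‖(prr y : E β)‖ ^ 2) * (2 * ⟪(prr y : E β), prr a⟫) *
              (⟪(prr y : E β), prr b⟫ * ⟪(prr y : E β), prr c⟫)
            + deriv η (‖(prr y : E β)‖ ^ 2) * (⟪(prr a : E β), prr b⟫ * ⟪(prr y : E β), prr c⟫
              + ⟪(prr y : E β), prr b⟫ * ⟪(prr a : E β), prr c⟫))
          - (deriv (deriv A) (‖(prr y : E β)‖ ^ 2) * (2 * ⟪(prr y : E β), prr a⟫) *
              hf (prl y : E α) (prl b) (prl c)
            + deriv A (‖(prr y : E β)‖ ^ 2) *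
              (hf (prl y : E α) (prl a) (prl b) * hu (prl y : E α) (prl c)
          + hf (prl y : E α) (prl a) (prl c) * hu (prl y : E α) (prl b))))) • (prr y : E β) := by
  have h0 : y + (0 : ℝ) • a = y := by simp
  have h1 := (prr : E (α ⊕ β) →L[ℝ] E β).hasFDerivAt.comp_hasDerivAt 0 (hd_chris hC hp hy a b c)
  have h2 : ((prr : E (α ⊕ β) →L[ℝ] E β) ∘ fun t : ℝ => gam η A (y + t • a) b c) =
      fun t : ℝ => (fP η (‖(prr (y + t • a) : E β)‖ ^ 2) *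
      (η (‖(prr (y + t • a) : E β)‖ ^ 2) * ⟪(prr b : E β), prr c⟫
      + deriv η (‖(prr (y + t • a) : E β)‖ ^ 2) *
        (⟪(prr (y + t • a) : E β), prr b⟫ * ⟪(prr (y + t • a) : E β), prr c⟫)
      - deriv A (‖(prr (y + t • a) : E β)‖ ^ 2) * hf (prl (y + t • a) : E α) (prl b) (prl c))) •
        (prr (y + t • a) : E β) := by
    funext t
    simp [gam]
  rw [h2] at h1
  have h3 := ((hd_P hp hy a).mul ((((hd_comp y a (diffAt_η hp hy)).mul_const
    ⟪(prr b : E β), prr c⟫).add ((hd_comp y a (diffAt_dη hp hy)).mul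
      ((hd_Z y a (prr b)).mul (hd_Z y a (prr c))))).sub
      ((hd_comp y a (diffAt_dA hp hy)).mul (hd_hf y a hy.2 (prl b) (prl c))))).smul (hd_prr y a)
  rw [h1.unique h3]
  simp only [h0, Pi.mul_apply, Pi.sub_apply, Pi.add_apply]

theorem hf_add_right (u p q q' : E α) : hf u p (q + q') = hf u p q + hf u p q' := by
  rw [hf_symm, hf_add_left, hf_symm u q, hf_symm u q']

theorem hf_smul_right (u p q : E α) (c : ℝ) : hf u p (c • q) = c * hf u p q := by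
  rw [hf_symm, hf_smul_left, hf_symm]

theorem hf_self' (u q : E α) (hu1 : ‖u‖ ^ 2 < 1) : hf u q u = hu u q := by
  rw [hf_symm, hf_self u q hu1]

theorem curv_alg (Za Zb Zc Zd Sab Sac Sad Sbc Sbd hab hac had hbc hbd hcd ua ub ud uc
    τ η η1 η2 A A1 A2 : ℝ) (hP : 1 + η * τ ≠ 0) (hA : A ≠ 0) :
   A * (((hab * uc + hac * ub) * ud + hbc * had
        + 2 * (A2/A - A1^2/A^2) * Za * (Zb * hcd + Zc * hbd) + (A1/A) * (Sab * hcd + Sac * hbd))
    - ((hab * uc + hbc * ua) * ud + hac * hbd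
        + 2 * (A2/A - A1^2/A^2) * Zb * (Za * hcd + Zc * had) + (A1/A) * (Sab * hcd + Sbc * had))
    + ((hbc * ua + (A1/A) * (Zb * hac + Zc * hab)) * ud
        + (A1/A) * Za * (hbc * ud + (A1/A) * (Zb * hcd + Zc * hbd))
        + (A1/A) * (1 + η * τ)⁻¹ * τ * (η * Sbc + η1 * Zb * Zc - A1 * hbc) * had)
    - ((hac * ub + (A1/A) * (Za * hbc + Zc * hab)) * ud
        + (A1/A) * Zb * (hac * ud + (A1/A) * (Za * hcd + Zc * had))
        + (A1/A) * (1 + η * τ)⁻¹ * τ * (η * Sac + η1 * Za * Zc - A1 * hac) * hbd))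
    + (2 * (-(η+τ*η1) * ((1 + η * τ)⁻¹)^2) * Za * (η * Sbc + η1 * Zb * Zc - A1 * hbc)
      + (1 + η * τ)⁻¹ * (2 * η1 * Za * Sbc + 2 * η2 * Za * Zb * Zc + η1 * (Sab * Zc + Zb * Sac)
        - 2 * A2 * Za * hbc - A1 * (hab * uc + hac * ub))
      + (1 + η * τ)⁻¹ * (η * (1 + η * τ)⁻¹ * (η * Sbc + η1 * Zb * Zc - A1 * hbc) * Za
        + η1 * Za * (1 + η * τ)⁻¹ * τ * (η * Sbc + η1 * Zb * Zc - A1 * hbc)
        - A1 * (hbc * ua + (A1/A) * (Zb * hac + Zc * hab)))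
      - (2 * (-(η+τ*η1) * ((1 + η * τ)⁻¹)^2) * Zb * (η * Sac + η1 * Za * Zc - A1 * hac)
      + (1 + η * τ)⁻¹ * (2 * η1 * Zb * Sac + 2 * η2 * Za * Zb * Zc + η1 * (Sab * Zc + Za * Sbc)
        - 2 * A2 * Zb * hac - A1 * (hab * uc + hbc * ua))
      + (1 + η * τ)⁻¹ * (η * (1 + η * τ)⁻¹ * (η * Sac + η1 * Za * Zc - A1 * hac) * Zb
        + η1 * Zb * (1 + η * τ)⁻¹ * τ * (η * Sac + η1 * Za * Zc - A1 * hac)
        - A1 * (hac * ub + (A1/A) * (Za * hbc + Zc * hab)))))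
       * (Zd + η * τ * Zd)
    + (1 + η * τ)⁻¹ * (η * Sbc + η1 * Zb * Zc - A1 * hbc) * (Sad + η * Zd * Za)
    - (1 + η * τ)⁻¹ * (η * Sac + η1 * Za * Zc - A1 * hac) * (Sbd + η * Zd * Zb)
   = (1/2 : ℝ) * (η * (1 + η * τ)⁻¹) * (2 * ((Sad + η * Za * Zd) * (Sbc + η * Zb * Zc)
        - (Sac + η * Za * Zc) * (Sbd + η * Zb * Zd)))
      + (-A1 * (1 + η * τ)⁻¹ / A) * ((Sad + η * Za * Zd) * (A * hbc)
        + (A * had) * (Sbc + η * Zb * Zc)
        - (Sac + η * Za * Zc) * (A * hbd) - (A * hac) * (Sbd + η * Zb * Zd))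
      + (1/2 : ℝ) * ((1 - τ * (1 + η * τ)⁻¹ * A1^2 / A) / A)
        * (2 * ((A * had) * (A * hbc) - (A * hac) * (A * hbd)))
      + ((1 + η * τ)⁻¹ * (η1 - η^2)) * ((Za * Zd) * (Sbc + η * Zb * Zc)
        + (Sad + η * Za * Zd) * (Zb * Zc)
        - (Za * Zc) * (Sbd + η * Zb * Zd) - (Sac + η * Za * Zc) * (Zb * Zd))
      + (A1 * ((η + τ * η1) * ((1 + η * τ)⁻¹)^2) / (A * (1 + η * τ)⁻¹) - 2 * A2 / A + A1^2/A^2)
        * ((Za * Zd) * (A * hbc) + (A * had) * (Zb * Zc)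
        - (Za * Zc) * (A * hbd) - (A * hac) * (Zb * Zd)) := by
  field_simp
  ring

theorem g1_apply (y v w : E (α ⊕ β)) : g1 η y v w = ⟪(prr v : E β), prr w⟫
    + η (‖(prr y : E β)‖ ^ 2) * ⟪(prr y : E β), prr v⟫ * ⟪(prr y : E β), prr w⟫ := by
  simp [g1, mul_assoc]

theorem g3_apply (y v w : E (α ⊕ β)) : g3 A y v w =
    A (‖(prr y : E β)‖ ^ 2) * hf (prl y : E α) (prl v) (prl w) := by
  simp [g3, hrd_apply]

theorem curv_gloc (hC : ChrStatement) (hp : Prof η A ρ) {y : E (α ⊕ β)}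
    (hy : y ∈ DomG α β ρ) (a b c d : E (α ⊕ β)) :
    gloc η A y (riem (gloc η A) y a b c) d =
      (1/2 : ℝ) * fK1 η (‖prr y‖ ^ 2) * KN (g1 η y) (g1 η y) a b c d
      + fM η A (‖prr y‖ ^ 2) * KN (g1 η y) (g3 A y) a b c d
      + (1/2 : ℝ) * fN η A (‖prr y‖ ^ 2) * KN (g3 A y) (g3 A y) a b c d
      + fkap η (‖prr y‖ ^ 2) * KN (rk (coR y)) (g1 η y) a b c d
      + flam η A (‖prr y‖ ^ 2) * KN (rk (coR y)) (g3 A y) a b c d := by
  have hτ : ‖(prr y : E β)‖ ^ 2 ∈ Ico 0 ρ := ⟨by positivity, hy.1⟩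
  have hη := (hp.η_pos _ hτ).ne'
  have hA := (hp.A_pos _ hτ).ne'
  have key := curv_alg ⟪(prr y : E β), prr a⟫ ⟪(prr y : E β), prr b⟫ ⟪(prr y : E β), prr c⟫
    ⟪(prr y : E β), prr d⟫ ⟪(prr a : E β), prr b⟫ ⟪(prr a : E β), prr c⟫ ⟪(prr a : E β), prr d⟫
    ⟪(prr b : E β), prr c⟫ ⟪(prr b : E β), prr d⟫ (hf (prl y : E α) (prl a) (prl b))
    (hf (prl y : E α) (prl a) (prl c)) (hf (prl y : E α) (prl a) (prl d))
    (hf (prl y : E α) (prl b) (prl c)) (hf (prl y : E α) (prl b) (prl d))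
    (hf (prl y : E α) (prl c) (prl d)) (hu (prl y : E α) (prl a)) (hu (prl y : E α) (prl b))
    (hu (prl y : E α) (prl d)) (hu (prl y : E α) (prl c))
    (‖(prr y : E β)‖ ^ 2) (η (‖(prr y : E β)‖ ^ 2)) (deriv η (‖(prr y : E β)‖ ^ 2))
    (deriv (deriv η) (‖(prr y : E β)‖ ^ 2)) (A (‖(prr y : E β)‖ ^ 2))
    (deriv A (‖(prr y : E β)‖ ^ 2)) (deriv (deriv A) (‖(prr y : E β)‖ ^ 2)) hη hA
  rw [gloc_apply]
  unfold riem
  rw [chris_gloc hC hp hy b c, chris_gloc hC hp hy a c, chris_gloc hC hp hy, chris_gloc hC hp hy]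
  simp only [map_add, map_sub, dgam1 hC hp hy, dgam2 hC hp hy]
  unfold gam
  simp only [prl_ilr, prr_ilr, hf_add_left, hf_sub_left, hf_smul_left, hf_add_right,
    hf_smul_right, hf_self _ _ hy.2, hf_self' _ _ hy.2, inner_add_left, inner_sub_left,
    inner_add_right, inner_sub_right, inner_smul_left, inner_smul_right,
    real_inner_self_eq_norm_sq, conj_trivial]
  simp only [KN, g1_apply, g3_apply, rk_apply, coR_apply, fK1, fM, fN, fkap, flam, fK0, fP]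
  rw [hf_symm (prl y : E α) (prl b) (prl a), real_inner_comm (prr a : E β) (prr b),
    real_inner_comm (prr y : E β) (prr a), real_inner_comm (prr y : E β) (prr b)]
  linear_combination key

end Local

/-- module CURV -/
theorem curv (hC : ChrStatement) : CurvStatement := by
  intro α β _ _ _ _ η A ρ hp
  exact ⟨metric_gloc hp, fun y hy a b c d => curv_gloc hC hp hy a b c d⟩

end Pool.Agent.RF.Curv83
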