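import Pool.Agent.Helper83_RF.Curv

/-!
# Module RIC: the Ricci tensor of the local doubly warped model
-/

noncomputable section

open scoped ContDiff Topology RealInnerProductSpace
set_option maxSynthPendingDepth 3
set_option linter.unusedSectionVars false
open Set

namespace Pool.Agent.RF.Curv83

variable {α β : Type} [Fintype α] [DecidableEq α] [Fintype β] [DecidableEq β]

theorem sum_eb {ι : Type} [Fintype ι] [DecidableEq ι] (f : E ι →L[ℝ] ℝ) (X : E ι) :
    ∑ i, f (eb i) * X i = f X := by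
  have h : X = ∑ i, X i • (eb i : E ι) := by
    ext j
    simp [eb, Pi.single_apply]
  conv_rhs => rw [h]
  rw [map_sum]
  refine Finset.sum_congr rfl fun i _ => ?_
  rw [map_smul, smul_eq_mul, mul_comm]

/-- the projection to the second component -/
def p1 (v : E (α ⊕ β)) : E (α ⊕ β) := ilr 0 (prr v)
/-- the projection to the first component -/
def p3 (v : E (α ⊕ β)) : E (α ⊕ β) := ilr (prl v) 0

theorem tr_p1 : ∑ i : α ⊕ β, (p1 (eb i : E (α ⊕ β))) i = Fintype.card β := by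
  rw [Fintype.sum_sum_type]
  have h1 : ∀ a : α, (p1 (eb (Sum.inl a) : E (α ⊕ β))) (Sum.inl a) = 0 := fun a => rfl
  have h2 : ∀ b : β, (p1 (eb (Sum.inr b) : E (α ⊕ β))) (Sum.inr b) = 1 := fun b => by
    change (eb (Sum.inr b) : E (α ⊕ β)) (Sum.inr b) = 1
    simp [eb]
  simp [h1, h2]

theorem tr_p3 : ∑ i : α ⊕ β, (p3 (eb i : E (α ⊕ β))) i = Fintype.card α := by
  rw [Fintype.sum_sum_type]
  have h1 : ∀ a : α, (p3 (eb (Sum.inl a) : E (α ⊕ β))) (Sum.inl a) = 1 := fun a => by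
    change (eb (Sum.inl a) : E (α ⊕ β)) (Sum.inl a) = 1
    simp [eb]
  have h2 : ∀ b : β, (p3 (eb (Sum.inr b) : E (α ⊕ β))) (Sum.inr b) = 0 := fun b => rfl
  simp [h1, h2]

variable {η A : ℝ → ℝ} {ρ : ℝ}

/-- the radial vector -/
def zv (η : ℝ → ℝ) (y : E (α ⊕ β)) : E (α ⊕ β) := ilr 0 (fP η (‖(prr y : E β)‖ ^ 2) • (prr y : E β))

/-- the curvature tensor as a vector -/
def rvec (η A : ℝ → ℝ) (y u v w : E (α ⊕ β)) : E (α ⊕ β) :=
  fK1 η (‖(prr y : E β)‖ ^ 2) • (g1 η y v w • p1 u - g1 η y u w • p1 v)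
  + fM η A (‖(prr y : E β)‖ ^ 2) • (g3 A y v w • p1 u + g1 η y v w • p3 u - g1 η y u w • p3 v
      - g3 A y u w • p1 v)
  + fN η A (‖(prr y : E β)‖ ^ 2) • (g3 A y v w • p3 u - g3 A y u w • p3 v)
  + fkap η (‖(prr y : E β)‖ ^ 2) • (g1 η y v w • coR y u • zv η y + rk (coR y) v w • p1 u
      - (coR y w * coR y u) • p1 v - (coR y v * g1 η y u w) • zv η y)
  + flam η A (‖(prr y : E β)‖ ^ 2) • (g3 A y v w • coR y u • zv η y + rk (coR y) v w • p3 u
      - (coR y w * coR y u) • p3 v - (coR y v * g3 A y u w) • zv η y)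

theorem gl_p1 (y v d : E (α ⊕ β)) : gloc η A y (p1 v) d = g1 η y v d := by
  rw [gloc_apply, g1_apply]
  simp [p1, hf, mul_assoc]

theorem gl_p3 (y v d : E (α ⊕ β)) : gloc η A y (p3 v) d = g3 A y v d := by
  rw [gloc_apply, g3_apply]
  simp [p3, hf]

theorem gl_zv {y : E (α ⊕ β)} (hη : 0 < 1 + η (‖(prr y : E β)‖ ^ 2) * ‖(prr y : E β)‖ ^ 2)
    (d : E (α ⊕ β)) : gloc η A y (zv η y) d = coR y d := by
  rw [gloc_apply]
  unfold zv fP
  simp only [prl_ilr, prr_ilr, inner_smul_left, inner_smul_right, real_inner_self_eq_norm_sq,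
    conj_trivial, coR_apply, hf, inner_zero_left, inner_zero_right]
  have h1 := hη.ne'
  generalize η (‖(prr y : E β)‖ ^ 2) = e at *
  generalize ‖(prr y : E β)‖ ^ 2 = τ at *
  field_simp
  ring

theorem riem_gloc (hC : ChrStatement) (hp : Prof η A ρ) {y : E (α ⊕ β)}
    (hy : y ∈ DomG α β ρ) (u v w : E (α ⊕ β)) :
    riem (gloc η A) y u v w = rvec η A y u v w := by
  obtain ⟨hinv, -⟩ := hC (α ⊕ β) _ _ (metric_gloc hp) y hy
  have hτ : ‖(prr y : E β)‖ ^ 2 ∈ Ico 0 ρ := ⟨by positivity, hy.1⟩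
  have hη := hp.η_pos _ hτ
  have hinj : Function.Injective (gloc η A y) := by
    obtain ⟨e, he⟩ := hinv
    rw [← he]
    exact e.injective
  apply hinj
  ext1 d
  rw [curv_gloc hC hp hy]
  unfold rvec
  simp only [map_add, map_sub, map_smul, add_apply,
    sub_apply, smul_apply, smul_eq_mul, gl_p1, gl_p3,
    gl_zv hη, KN, rk_apply]
  ring

theorem ric_gloc (hC : ChrStatement) (hp : Prof η A ρ) {y : E (α ⊕ β)}
    (hy : y ∈ DomG α β ρ) (v w : E (α ⊕ β)) : ric (gloc η A) y v w =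
      (((Fintype.card β : ℝ) - 1) * fK1 η (‖prr y‖ ^ 2)
          + ‖prr y‖ ^ 2 * fP η (‖prr y‖ ^ 2) * fkap η (‖prr y‖ ^ 2)
          + (Fintype.card α : ℝ) * fM η A (‖prr y‖ ^ 2)) * g1 η y v w
      + (((Fintype.card β : ℝ) - 2) * fkap η (‖prr y‖ ^ 2)
          + (Fintype.card α : ℝ) * flam η A (‖prr y‖ ^ 2)) * rk (coR y) v w
      + ((Fintype.card β : ℝ) * fM η A (‖prr y‖ ^ 2)
          + ‖prr y‖ ^ 2 * fP η (‖prr y‖ ^ 2) * flam η A (‖prr y‖ ^ 2)
          + ((Fintype.card α : ℝ) - 1) * fN η A (‖prr y‖ ^ 2)) * g3 A y v w := by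
  unfold ric
  have hi : ∀ i : α ⊕ β, (riem (gloc η A) y (eb i) v w) i =
      fK1 η (‖(prr y : E β)‖ ^ 2) * (g1 η y v w * (p1 (eb i)) i
        - (g1 η y).flip w (eb i) * (p1 v) i)
      + fM η A (‖(prr y : E β)‖ ^ 2) * (g3 A y v w * (p1 (eb i)) i + g1 η y v w * (p3 (eb i)) i
        - (g1 η y).flip w (eb i) * (p3 v) i - (g3 A y).flip w (eb i) * (p1 v) i)
      + fN η A (‖(prr y : E β)‖ ^ 2) * (g3 A y v w * (p3 (eb i)) i
        - (g3 A y).flip w (eb i) * (p3 v) i)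
      + fkap η (‖(prr y : E β)‖ ^ 2) * (g1 η y v w * (coR y (eb i) * (zv η y) i)
        + rk (coR y) v w * (p1 (eb i)) i
        - coR y w * (coR y (eb i) * (p1 v) i)
        - coR y v * ((g1 η y).flip w (eb i) * (zv η y) i))
      + flam η A (‖(prr y : E β)‖ ^ 2) * (g3 A y v w * (coR y (eb i) * (zv η y) i)
        + rk (coR y) v w * (p3 (eb i)) i
        - coR y w * (coR y (eb i) * (p3 v) i)
        - coR y v * ((g3 A y).flip w (eb i) * (zv η y) i)) := by
    intro i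
    rw [riem_gloc hC hp hy]
    unfold rvec
    simp only [PiLp.add_apply, PiLp.sub_apply, PiLp.smul_apply, smul_eq_mul,
      ContinuousLinearMap.flip_apply]
    ring
  rw [Finset.sum_congr rfl fun i _ => hi i]
  simp only [Finset.sum_add_distrib, ← Finset.mul_sum, Finset.sum_sub_distrib, sum_eb, tr_p1,
    tr_p3]
  simp only [ContinuousLinearMap.flip_apply]
  have e1 : g1 η y (p1 v) w = g1 η y v w := by
    rw [g1_apply, g1_apply]
    simp [p1]
  have e2 : g1 η y (p3 v) w = 0 := by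
    rw [g1_apply]
    simp [p3]
  have e3 : g3 A y (p1 v) w = 0 := by
    rw [g3_apply]
    simp [p1, hf]
  have e4 : g3 A y (p3 v) w = g3 A y v w := by
    rw [g3_apply, g3_apply]
    simp [p3]
  have hτ : ‖(prr y : E β)‖ ^ 2 ∈ Ico 0 ρ := ⟨by positivity, hy.1⟩
  have hη := hp.η_pos _ hτ
  have e5 : g1 η y (zv η y) w = coR y w := by
    have h := gl_zv (η := η) (A := A) hη w
    rw [gloc_apply] at h
    rw [g1_apply, ← h]
    simp [zv, hf, mul_assoc]
  have e6 : g3 A y (zv η y) w = 0 := by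
    rw [g3_apply]
    simp [zv, hf]
  have e7 : coR y (zv η y) = ‖(prr y : E β)‖ ^ 2 * fP η (‖(prr y : E β)‖ ^ 2) := by
    unfold zv
    simp only [coR_apply, prr_ilr, inner_smul_right, real_inner_self_eq_norm_sq]
    ring
  have e8 : coR y (p1 v) = coR y v := by simp [p1]
  have e9 : coR y (p3 v) = 0 := by simp [p3]
  rw [e1, e2, e3, e4, e5, e6, e7, e8, e9, rk_apply]
  ring

/-- module RIC -/
theorem ricLoc (hC : ChrStatement) : RicLocStatement := by
  intro α β _ _ _ _ η A ρ hp y hy v w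
  exact ric_gloc hC hp hy v w

end Pool.Agent.RF.Curv83
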